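import Pool.Agent.N118.SU.Main

/-!
# No surround count forces tiling (MP_ae4adf_co, Q1, disproof with `n = 3`, `m = 1`)

The plane is `ℂ`. For every `k` there are three pairwise non-congruent prototiles `A`, `B`, `V` which
admit no tiling of the plane although every tile congruent to one of them can be surrounded `k` times.

Undecorated, `A` is the box `[0,2M] × [0,1/4]` with a pillar `[M,M+1] × [0,3/4]`, `B` is the box
`[M,3M+1] × [3/4,1]` with a hanging pillar `[2M,2M+1] × [1/4,1]`, and `V` is `[0,1] × [1/4,3/4]`.
A homeomorphism of the plane which commutes with the integer translations adds cusps to the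
boundaries, each of which fits only into its own notch. In a tiling a row of tiles `A` (period `2M`)
would face a row of tiles `B` (period `2M+1`), and two pillars would collide; the collision is more
than `M` tiles away from a suitable central tile, so the patches exist up to that size.
-/

set_option autoImplicit false

namespace Pool.Agent.Results.MP_ae4adf_co.NoSurroundBound

open Pool.Agent.N118.SU

/-- For every `k` there is a set `S` of three prototiles (closed topological disks, pairwise
non-congruent) which admits no tiling of the plane, although there is a patch from `S` containing one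
tile and every patch from `S` containing one tile can be surrounded `k` times. -/
theorem result : ∀ k : ℕ, ∃ S : Set (Set ℂ), S.ncard = 3 ∧ (∀ P ∈ S, IsClosedDisk P) ∧
    (∀ P ∈ S, ∀ Q ∈ S, P ≠ Q → ∀ g : ℂ ≃ᵢ ℂ, g '' P ≠ Q) ∧ ¬ AdmitsTiling S ∧
    (∃ A, IsPatch S A ∧ A.ncard = 1) ∧
    ∀ A, IsPatch S A → A.ncard = 1 → CanBeSurrounded S A k :=
  main

end Pool.Agent.Results.MP_ae4adf_co.NoSurroundBound
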